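import Pool.Agent.TH53.UG5
import Pool.Agent.W963.GE.Final

/-!
# Digit sums at several numbers at once
-/

set_option autoImplicit false

namespace Pool.Agent.N772.GG

open Subgroup Finset
open scoped Pointwise commutatorElement IsMulCommutative
open Pool.Agent.H785R3.GrowthA

universe u

/-- `z` is an eigenvalue of `g` on the cyclic submodule generated by `b`. -/
def InSpec {M : Type*} [AddCommGroup M] (g : Module.End ℤ M) (b : M) (z : ℂ) : Prop :=
  ∀ p : Polynomial ℤ, (Polynomial.aeval g p) b = 0 → Polynomial.aeval z p = 0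

lemma aeval_pi {ι : Type} (y : ι → ℂ) (p : Polynomial ℤ) :
    Polynomial.aeval y p = fun i => Polynomial.aeval (y i) p := by
  funext i
  have h := Polynomial.aeval_algHom_apply (Pi.evalAlgHom ℤ (fun _ : ι => ℂ) i) y p
  simpa using h.symm

lemma aeval_pi0 {ι : Type} (y : ι → ℂ) (p : Polynomial ℤ)
    (h : ∀ i, Polynomial.aeval (y i) p = 0) :
    @Polynomial.aeval ℤ (ι → ℂ) _ _ (Ring.toIntAlgebra _) y p = 0 := by
  have h1 := aeval_pi y p
  rw [Polynomial.aeval_def, Polynomial.eval₂_eq_sum_range] at h1 ⊢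
  funext i
  have h2 := congrFun h1 i
  simp only [h i] at h2
  rw [Pi.zero_apply, ← h2]
  simp

lemma card_DS_le {R : Type*} [CommRing R] {G : Type u} [Group G] {S : Set G} (hS : S.Finite)
    {j : ℕ} {X Y : G} (hX : X ∈ S ^ j) (hY : Y ∈ S ^ j)
    (x : R) (h : ∀ u v : List Bool, u.length = v.length → H746UG.ev X Y u = H746UG.ev X Y v →
      H746UG.dsm x u = H746UG.dsm x v) (n : ℕ) :
    Nat.card (H746UG.DS x n) ≤ Nat.card ↥(S ^ n) ^ j := by
  refine le_trans ?_ (H746UG.card_pow_mul S j n)
  have : Finite ↥(S ^ (j * n)) := H746UG.finite_pow S hS _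
  choose w hw1 hw2 using fun z : H746UG.DS x n => z.2
  refine Nat.card_le_card_of_injective
    (fun z => (⟨H746UG.ev X Y (w z), by
      have := H746UG.ev_mem S j hX hY (w z)
      rwa [hw1 z] at this⟩ : ↥(S ^ (j * n)))) ?_
  intro z z' hzz
  have h1 := h (w z) (w z') ((hw1 z).trans (hw1 z').symm) (congrArg Subtype.val hzz)
  apply Subtype.ext
  rw [hw2 z, hw2 z', h1]

section Abel

variable {G : Type u} [Group G] (A : Subgroup G) [A.Normal] [IsMulCommutative A]

lemma digits_of_pair {R : Type*} [CommRing R] {t d : G} {m : Additive A}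
    (hm : H746UG.val A m = d) (x : R)
    (hx : ∀ p : Polynomial ℤ, (Polynomial.aeval (H746UG.th A t) p) m = 0 →
      Polynomial.aeval x p = 0) (u v : List Bool) (hl : u.length = v.length)
    (h : H746UG.ev t (t * d) u = H746UG.ev t (t * d) v) :
    H746UG.dsm x u = H746UG.dsm x v := by
  have e : t * d = H746UG.val A (H746UG.th A t m) * t := by
    rw [H746UG.val_th, hm]; group
  rw [e, ev_val, ev_val, hl] at h
  have h1 := H746UG.val_inj (mul_right_cancel h)
  set g := H746UG.th A t with hg
  have hcomm : ∀ p : Polynomial ℤ, (Polynomial.aeval g p) (g m) = g ((Polynomial.aeval g p) m) := by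
    intro p
    have h2 : Polynomial.aeval g (p * Polynomial.X) = Polynomial.aeval g (Polynomial.X * p) := by
      rw [mul_comm]
    rw [map_mul, map_mul, Polynomial.aeval_X] at h2
    exact congrArg (fun f : Module.End ℤ (Additive A) => f m) h2
  rw [hcomm, hcomm] at h1
  have h3 := rho_inj (H746UG.th A) t h1
  have h4 := hx (H746UG.dsm Polynomial.X u - H746UG.dsm Polynomial.X v) (by
    rw [map_sub, LinearMap.sub_apply, h3, sub_self])
  have h5 : ∀ w : List Bool, (Polynomial.aeval x) (H746UG.dsm (Polynomial.X : Polynomial ℤ) w) =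
      H746UG.dsm x w := by
    intro w
    have := H746UG.dsm_map ((Polynomial.aeval x : Polynomial ℤ →ₐ[ℤ] R) : Polynomial ℤ →+* R)
      Polynomial.X w
    simpa using this
  rw [map_sub, h5, h5, sub_eq_zero] at h4
  exact h4

end Abel

/-- digit sum as a sum -/
lemma dsm_ofFn {R : Type*} [CommRing R] (x : R) : ∀ (n : ℕ) (f : Fin n → Bool),
    H746UG.dsm x (List.ofFn f) = ∑ i : Fin n, (if f i then 0 else x ^ (i : ℕ)) := by
  intro n
  induction n with
  | zero => intro f; simp [H746UG.dsm]
  | succ n ih =>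
    intro f
    rw [List.ofFn_succ, H746UG.dsm, ih, Fin.sum_univ_succ, Finset.mul_sum]
    congr 1
    · cases f 0 <;> simp
    · refine Finset.sum_congr rfl fun i _ => ?_
      split_ifs
      · simp
      · simp [pow_succ']

open Pool.Agent.W963.GE

variable {ι : Type} [Fintype ι] [DecidableEq ι]

/-- the values of a digit sum -/
noncomputable def vval (x : ι → ℂ) {n : ℕ} (ε : Fin n → Bool) : ι → ℂ :=
  fun j => ∑ i : Fin n, if ε i then x j ^ (i : ℕ) else 0

omit [Fintype ι] [DecidableEq ι] in
lemma vval_mem (x : ι → ℂ) {n : ℕ} (ε : Fin n → Bool) : vval x ε ∈ H746UG.DS x n := by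
  refine ⟨List.ofFn fun i => !ε i, by simp, ?_⟩
  rw [dsm_ofFn]
  funext j
  simp only [vval]
  rw [Finset.sum_apply]
  refine Finset.sum_congr rfl fun i _ => ?_
  cases ε i <;> simp

theorem count (x : ι → ℂ) (hinj : Function.Injective x) (hx : ∀ i, 1 < ‖x i‖) (n : ℕ) :
    (2 / (1 + al x)) ^ n ≤ (Nat.card (H746UG.DS x n) : ℝ) := by
  classical
  have hcs := cs (vval x (n := n))
  set N := (univ.image (vval x (n := n))).card with hN
  have hNle : (N : ℝ) ≤ (Nat.card (H746UG.DS x n) : ℝ) := by
    have hf : Finite (H746UG.DS x n) := H746UG.DS_finite x n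
    have h1 : ((univ.image (vval x (n := n)) : Finset (ι → ℂ)) : Set (ι → ℂ)) ⊆ H746UG.DS x n := by
      intro y hy
      obtain ⟨ε, _, rfl⟩ := Finset.mem_image.1 (Finset.mem_coe.1 hy)
      exact vval_mem x ε
    have h2 := Nat.card_mono (H746UG.DS_finite x n) h1
    rw [Nat.card_coe_set_eq, Set.ncard_coe_finset] at h2
    exact_mod_cast h2
  refine le_trans ?_ hNle
  set Cn := (univ.filter fun p : (Fin n → Bool) × (Fin n → Bool) =>
    vval x p.1 = vval x p.2).card with hC
  have hcard : Fintype.card (Fin n → Bool) = 2 ^ n := by simp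
  rw [hcard] at hcs
  have hal : 0 < al x := Real.exp_pos _
  have hCle : (Cn : ℝ) ≤ (2 * (1 + al x)) ^ n := by
    refine le_trans ?_ (total x hinj hx n)
    rw [hC, Finset.card_filter]
    push_cast
    rw [← (Equiv.arrowProdEquivProdArrow (Fin n) (fun _ => Bool) (fun _ => Bool)).sum_comp]
    refine Finset.sum_le_sum fun f _ => ?_
    split_ifs with hf
    · have h0 : SS x f = 0 := by
        funext j
        have h2 : vval x (fun i => (f i).1) j = vval x (fun i => (f i).2) j :=
          congrFun hf j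
        unfold vval at h2
        rw [← sub_eq_zero, ← Finset.sum_sub_distrib] at h2
        simp only [SS, Pi.zero_apply]
        rw [← h2]
        refine Finset.sum_congr rfl fun i _ => ?_
        unfold dd
        push_cast
        split_ifs <;> simp
      rw [h0]
      simp [NN]
    · exact (Real.exp_pos _).le
  have h3 : ((2 : ℝ) ^ n) ^ 2 ≤ N * (2 * (1 + al x)) ^ n := by
    have h4 : (((2 : ℝ) ^ n) ^ 2) ≤ (N : ℝ) * Cn := by exact_mod_cast hcs
    exact h4.trans (mul_le_mul_of_nonneg_left hCle (Nat.cast_nonneg _))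
  rw [div_pow, div_le_iff₀ (by positivity)]
  have h5 : (2 : ℝ) ^ n * 2 ^ n ≤ 2 ^ n * (N * (1 + al x) ^ n) := by
    rw [mul_pow] at h3
    calc (2 : ℝ) ^ n * 2 ^ n = (2 ^ n) ^ 2 := by ring
      _ ≤ _ := h3
      _ = _ := by ring
  exact le_of_mul_le_mul_left h5 (by positivity)

end Pool.Agent.N772.GG
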