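import Pool.Agent.N772.GG.LM

/-!
# The theorems on the growth rate
-/

set_option autoImplicit false

namespace Pool.Agent.N772.GG

open Filter Topology Polynomial
open scoped Pointwise commutatorElement TensorProduct
open Pool.Agent.TH53.UG (act act_of)
open Pool.Agent.W963.GE (gam TT)

universe u

section Spec

variable {M : Type*} [AddCommGroup M] {g : Module.End ℤ M} {b : M}

lemma spec_int (P : ℤ[X]) (hP : P.Monic) (h0 : aeval g P b = 0) {z : ℂ} (hz : InSpec g b z) :
    IsIntegral ℤ z := ⟨P, hP, hz P h0⟩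

lemma spec_fin (P : ℤ[X]) (hP : P.Monic) (h0 : aeval g P b = 0) :
    {z : ℂ | InSpec g b z}.Finite := by
  refine ((P.aroots ℂ).toFinset.finite_toSet).subset ?_
  intro z hz
  rw [Finset.mem_coe, Multiset.mem_toFinset, mem_aroots]
  exact ⟨hP.ne_zero, hz P h0⟩

lemma spec_conj (P : ℤ[X]) (hP : P.Monic) (h0 : aeval g P b = 0) {z a : ℂ} (hz : InSpec g b z)
    (ha : aeval a (minpoly ℤ z) = 0) : InSpec g b a := by
  intro p hp
  have h1 := minpoly.isIntegrallyClosed_dvd (spec_int P hP h0 hz) (hz p hp)
  obtain ⟨q, rfl⟩ := h1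
  rw [map_mul, ha, zero_mul]

lemma log_LM (P : ℤ[X]) (hP : P.Monic) (h0 : aeval g P b = 0) :
    Real.log (LM g b) = ∑ z ∈ (spec_fin P hP h0).toFinset, Real.log (max 1 ‖z‖) := by
  unfold LM
  rw [finprod_mem_eq_finite_toFinset_prod _ (spec_fin P hP h0), Real.log_prod]
  intro a _
  have : (0 : ℝ) < max 1 ‖a‖ := lt_max_of_lt_left one_pos
  exact this.ne'

/-- the sum over the different noncyclotomic factors -/
noncomputable def wt (g : Module.End ℤ M) (b : M) : ℝ :=
  ∑ᶠ z ∈ {z : ℂ | InSpec g b z ∧ z ≠ 0 ∧ ∀ m > 0, z ^ m ≠ 1},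
    1 / ((minpoly ℤ z).natDegree * Real.log (2 * (minpoly ℤ z).natDegree) ^ 3)

end Spec

theorem wt_le : ∃ c : ℝ, 0 < c ∧ ∀ {M : Type u} [AddCommGroup M] (g : Module.End ℤ M) (b : M)
    (P : ℤ[X]), P.Monic → aeval g P b = 0 → c * wt g b ≤ Real.log (LM g b) := by
  obtain ⟨c, hc, h⟩ := dob_sum
  refine ⟨c, hc, ?_⟩
  intro M _ g b P hP h0
  have hfin : {z : ℂ | InSpec g b z ∧ z ≠ 0 ∧ ∀ m > 0, z ^ m ≠ 1}.Finite :=
    (spec_fin P hP h0).subset fun z hz => hz.1
  rw [log_LM P hP h0]
  unfold wt
  rw [finsum_mem_eq_finite_toFinset_sum _ hfin]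
  apply h
  · intro z hz
    rw [Set.Finite.mem_toFinset] at hz
    exact spec_int P hP h0 hz
  · intro z hz a ha
    rw [Set.Finite.mem_toFinset] at hz ⊢
    exact spec_conj P hP h0 hz ha
  · intro z hz
    rw [Set.Finite.mem_toFinset] at hz ⊢
    exact hz.1
  · intro z hz
    rw [Set.Finite.mem_toFinset] at hz
    exact hz.2

/-- existence of a short pair -/
theorem exists_pair {k d : ℕ} (hk : 1 ≤ k) {G : Type u} [Group G] (S : Set G)
    (hfin : S.Finite) (hne : S.Nonempty) (hgen : Subgroup.closure S = ⊤) (H : Subgroup G)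
    (hH0 : H.index ≠ 0) (hHd : H.index ≤ d)
    (hnil : Group.IsNilpotent (gam H k) ∨ ¬ Group.IsVirtuallyNilpotent (H ⧸ ⁅gam H k, gam H k⁆)) :
    Group.IsVirtuallyNilpotent G ∨
    Real.log 2 / (2 ^ (k + 1) * (2 * d - 1)) ≤ H746UG.rho S ∨
    (Module.Finite ℤ (Additive (Abelianization (gam H k))) ∧ ∃ (t : H) (c : gam H k),
      (t : G) ∈ (insert 1 S) ^ (2 ^ (k + 1) * (2 * d - 1)) ∧
      ((t * (c : H) : H) : G) ∈ (insert 1 S) ^ (2 ^ (k + 1) * (2 * d - 1)) ∧
      ∃ z : ℂ, z ≠ 0 ∧ (∀ m > 0, z ^ m ≠ 1) ∧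
        InSpec (act (gam H k) t) (Additive.ofMul (Abelianization.of c)) z) := by
  have hd : 1 ≤ d := by omega
  have hLpos : 0 < 2 ^ (k + 1) := by positivity
  rcases main_track (Pool.Agent.W963.GE.TT_finite S hfin H d)
      (Pool.Agent.W963.GE.TT_gen S hgen H hH0 hHd) hk with
    h | ⟨hMf, m, X, Y, c, hm0, hm, hX, hY, hXY, x, hx0, hx, hp⟩ | ⟨h', h⟩
  · right; left
    have h1 := Pool.Agent.TH53.UG.rho_of_two _ hLpos h
    have h2 := Pool.Agent.W963.GE.rho_TT S hfin hne H hd
    have he : ((2 * d - 1 : ℕ) : ℝ) = 2 * d - 1 := by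
      rw [Nat.cast_sub (by omega)]; push_cast; ring
    rw [he] at h2
    have hpos : (0 : ℝ) < 2 * d - 1 := by
      have : (1 : ℝ) ≤ d := by exact_mod_cast hd
      linarith
    have h3 := h1.trans h2
    push_cast at h3
    rw [← div_div, div_le_iff₀ hpos, mul_comm (H746UG.rho S)]
    exact h3
  · right; right
    have key : ∀ W ∈ (TT S H d) ^ m, (W : G) ∈ (insert 1 S) ^ (2 ^ (k + 1) * (2 * d - 1)) := by
      intro W hW
      refine Pool.Agent.W963.GE.pow_mono S ?_ (Pool.Agent.W963.GE.TT_pow S H d m W hW)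
      rw [mul_comm (2 ^ (k + 1))]
      exact Nat.mul_le_mul_left _ hm
    refine ⟨hMf, X, c, key X hX, ?_, x, hx0, hx, hp⟩
    rw [hXY]
    exact key Y hY
  · left
    rcases hnil with hnil | hnil
    · exact Pool.Agent.W963.GE.vn_of_sub H hH0 (h hnil)
    · exact absurd h' hnil

lemma act_mul {G : Type*} [Group G] (N : Subgroup G) [N.Normal] (g h : G) :
    act N (g * h) = act N g * act N h := by
  apply LinearMap.ext
  intro b
  obtain ⟨γ, hγ⟩ := QuotientGroup.mk_surjective (Additive.toMul b)
  have hb : b = Additive.ofMul (Abelianization.of γ) := by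
    apply Additive.toMul.injective
    exact hγ.symm
  rw [hb, Module.End.mul_apply, act_of, act_of, act_of]
  simp

lemma act_mem {G : Type*} [Group G] (N : Subgroup G) [N.Normal] {g : G} (hg : g ∈ N) :
    act N g = 1 := by
  apply LinearMap.ext
  intro b
  obtain ⟨γ, hγ⟩ := QuotientGroup.mk_surjective (Additive.toMul b)
  have hb : b = Additive.ofMul (Abelianization.of γ) := by
    apply Additive.toMul.injective
    exact hγ.symm
  rw [hb, act_of, Module.End.one_apply]
  congr 1
  have h1 : (MulAut.conjNormal g γ : N) = ⟨g, hg⟩ * γ * ⟨g, hg⟩⁻¹ := by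
    apply Subtype.ext
    simp
  rw [h1, map_mul, map_mul, map_inv, mul_comm (Abelianization.of (⟨g, hg⟩ : N)), mul_assoc,
    mul_inv_cancel, mul_one]

lemma act_comm {G : Type*} [Group G] (g h : G) :
    act (commutator G) g * act (commutator G) h = act (commutator G) h * act (commutator G) g := by
  have e : g * h = ⁅g, h⁆ * (h * g) := by rw [commutatorElement_def]; group
  have h1 : ⁅g, h⁆ ∈ commutator G := Subgroup.commutator_mem_commutator trivial trivial
  rw [← act_mul, e, act_mul, act_mem _ h1, one_mul, act_mul]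

lemma commute_aeval {R : Type*} [Ring R] {a b : R} (h : Commute a b) (p : ℤ[X]) :
    Commute a (aeval b p) := by
  induction p using Polynomial.induction_on' with
  | add p q hp hq => rw [map_add]; exact hp.add_right hq
  | monomial n r =>
    rw [aeval_monomial]
    exact (Algebra.commute_algebraMap_right r a).mul_right (h.pow_right n)

/-- in a two generator group the commutator is a cyclic vector -/
theorem spec_of_two {G : Type u} [Group G] {x y : G} (hgen : Subgroup.closure {x, y} = ⊤) (t : G)
    (c : commutator G) (hc : (c : G) = (y * x)⁻¹ * (x * y)) {z : ℂ}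
    (hz : Module.End.HasEigenvalue (LinearMap.baseChange ℂ (act (commutator G) t) :
      Module.End ℂ (ℂ ⊗[ℤ] Additive (Abelianization (commutator G)))) z) :
    InSpec (act (commutator G) t) (Additive.ofMul (Abelianization.of c)) z := by
  intro p hp
  set f := aeval (act (commutator G) t) p with hf
  have hfc : ∀ g : G, f * act (commutator G) g = act (commutator G) g * f := by
    intro g
    have : Commute (act (commutator G) g) (act (commutator G) t) := act_comm g t
    exact (commute_aeval this p).symm.eq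
  -- the subgroup of the elements that are killed
  let K : Subgroup G := {
    carrier := {a | ∃ h : a ∈ commutator G,
      f (Additive.ofMul (Abelianization.of (⟨a, h⟩ : commutator G))) = 0}
    mul_mem' := by
      rintro a b ⟨ha, ha'⟩ ⟨hb, hb'⟩
      refine ⟨mul_mem ha hb, ?_⟩
      have : (⟨a * b, mul_mem ha hb⟩ : commutator G) = ⟨a, ha⟩ * ⟨b, hb⟩ := rfl
      rw [this, map_mul, ofMul_mul, map_add, ha', hb', add_zero]
    one_mem' := by
      refine ⟨one_mem _, ?_⟩
      have : (⟨1, one_mem _⟩ : commutator G) = 1 := rfl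
      rw [this, map_one, ofMul_one, map_zero]
    inv_mem' := by
      rintro a ⟨ha, ha'⟩
      refine ⟨inv_mem ha, ?_⟩
      have : (⟨a⁻¹, inv_mem ha⟩ : commutator G) = (⟨a, ha⟩ : commutator G)⁻¹ := rfl
      rw [this, map_inv, ofMul_inv, map_neg, ha', neg_zero] }
  have hKn : K.Normal := by
    constructor
    rintro a ⟨ha, ha'⟩ g
    refine ⟨(inferInstance : (commutator G).Normal).conj_mem a ha g, ?_⟩
    have h1 : (⟨g * a * g⁻¹, (inferInstance : (commutator G).Normal).conj_mem a ha g⟩ :
        commutator G) = MulAut.conjNormal g ⟨a, ha⟩ := by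
      apply Subtype.ext
      simp
    rw [h1, ← act_of, ← Module.End.mul_apply, hfc, Module.End.mul_apply, ha', map_zero]
  have hcK : (y * x)⁻¹ * (x * y) ∈ K := by
    rw [← hc]
    exact ⟨c.2, hp⟩
  -- the quotient is commutative
  have hle : commutator G ≤ K := by
    have hq : ∀ a b : G ⧸ K, a * b = b * a := by
      have hgen' : Subgroup.closure ({QuotientGroup.mk' K x, QuotientGroup.mk' K y} : Set (G ⧸ K)) =
          ⊤ := by
        have h1 := congrArg (Subgroup.map (QuotientGroup.mk' K)) hgen
        rw [MonoidHom.map_closure, ← MonoidHom.range_eq_map,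
          MonoidHom.range_eq_top.2 (QuotientGroup.mk'_surjective K), Set.image_pair] at h1
        exact h1
      have hxy : QuotientGroup.mk' K x * QuotientGroup.mk' K y =
          QuotientGroup.mk' K y * QuotientGroup.mk' K x := by
        rw [← map_mul, ← map_mul]
        symm
        rw [QuotientGroup.mk'_apply, QuotientGroup.mk'_apply, QuotientGroup.eq]
        exact hcK
      have hcl := Subgroup.isMulCommutative_closure (k :=
          ({QuotientGroup.mk' K x, QuotientGroup.mk' K y} : Set (G ⧸ K))) (by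
            rintro a (rfl | rfl) b (rfl | rfl)
            · rfl
            · exact hxy
            · exact hxy.symm
            · rfl)
      intro a b
      have ha : a ∈ Subgroup.closure
          ({QuotientGroup.mk' K x, QuotientGroup.mk' K y} : Set (G ⧸ K)) := by
        rw [hgen']; trivial
      have hb : b ∈ Subgroup.closure
          ({QuotientGroup.mk' K x, QuotientGroup.mk' K y} : Set (G ⧸ K)) := by
        rw [hgen']; trivial
      exact congrArg Subtype.val (hcl.is_comm.comm ⟨a, ha⟩ ⟨b, hb⟩)
    rw [commutator_def, Subgroup.commutator_le]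
    intro a _ b _
    rw [← QuotientGroup.eq_one_iff]
    have := hq a b
    rw [commutatorElement_def]
    simp only [QuotientGroup.mk_mul, QuotientGroup.mk_inv]
    rw [this]
    group
  have hf0 : f = 0 := by
    apply LinearMap.ext
    intro b
    obtain ⟨γ, hγ⟩ := QuotientGroup.mk_surjective (Additive.toMul b)
    have hb : b = Additive.ofMul (Abelianization.of γ) := by
      apply Additive.toMul.injective
      exact hγ.symm
    obtain ⟨h1, h2⟩ := hle γ.2
    rw [hb]
    exact h2
  obtain ⟨v, hv⟩ := hz.exists_hasEigenvector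
  have h3 := Polynomial.aeval_algHom_apply (Module.End.baseChangeHom ℤ ℂ
    (Additive (Abelianization (commutator G)))) (act (commutator G) t) p
  have h4 : (aeval (LinearMap.baseChange ℂ (act (commutator G) t) :
      Module.End ℂ (ℂ ⊗[ℤ] Additive (Abelianization (commutator G)))) p) = 0 := by
    refine h3.trans ?_
    rw [← hf, hf0, map_zero]
  have h5 := Module.End.aeval_apply_of_hasEigenvector (p := p.map (algebraMap ℤ ℂ)) hv
  rw [aeval_map_algebraMap, h4, LinearMap.zero_apply] at h5
  have h6 := (smul_eq_zero.1 h5.symm).resolve_right hv.2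
  rwa [eval_map_algebraMap] at h6

end Pool.Agent.N772.GG
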