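import Pool.Agent.N772.GG.Pair
import Pool.Agent.W963.GE.Dob

/-!
# The Mahler measure at a vector
-/

set_option autoImplicit false

namespace Pool.Agent.N772.GG

open Filter Topology Polynomial
open scoped Pointwise
open Pool.Agent.TH53.UG (act)

universe u

/-- the product of `max (1, |z|)` over the different eigenvalues of `g` at `b` -/
noncomputable def LM {M : Type*} [AddCommGroup M] (g : Module.End ℤ M) (b : M) : ℝ :=
  ∏ᶠ z ∈ {z : ℂ | InSpec g b z}, max 1 ‖z‖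

lemma mulSupport_max : Function.mulSupport (fun z : ℂ => max 1 ‖z‖) = {z | 1 < ‖z‖} := by
  ext z
  simp only [Function.mem_mulSupport, Set.mem_ofPred_eq]
  constructor
  · intro h
    by_contra hcon
    exact h (max_eq_left (not_lt.1 hcon))
  · intro h h1
    rw [max_eq_right h.le] at h1
    linarith

lemma LM_eq {M : Type*} [AddCommGroup M] (g : Module.End ℤ M) (b : M)
    (h : {z : ℂ | InSpec g b z ∧ 1 < ‖z‖}.Finite) : LM g b = ∏ z ∈ h.toFinset, ‖z‖ := by
  unfold LM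
  rw [finprod_mem_eq_prod_of_inter_mulSupport_eq (t := h.toFinset)]
  · refine Finset.prod_congr rfl fun z hz => ?_
    rw [Set.Finite.mem_toFinset] at hz
    exact max_eq_right hz.2.le
  · rw [mulSupport_max]
    ext z
    simp only [Set.Finite.coe_toFinset, Set.mem_inter_iff, Set.mem_ofPred_eq]
    tauto

lemma LM_inf {M : Type*} [AddCommGroup M] (g : Module.End ℤ M) (b : M)
    (h : {z : ℂ | InSpec g b z ∧ 1 < ‖z‖}.Infinite) : LM g b = 1 := by
  unfold LM
  apply finprod_mem_eq_one_of_infinite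
  rw [mulSupport_max]
  exact h

lemma rho_nonneg {G : Type*} [Group G] (S : Set G) : 0 ≤ H746UG.rho S := by
  refine ge_of_tendsto (H746UG.tendsto_rho S) ?_
  filter_upwards with n
  exact div_nonneg (Real.log_natCast_nonneg _) (Nat.cast_nonneg n)

theorem LM_bound {G : Type u} [Group G] (S : Set G) (hS : S.Finite) (hne : S.Nonempty)
    (H : Subgroup G) (Γ : Subgroup H) [Γ.Normal] {j : ℕ} (X Y : H)
    (hX : (X : G) ∈ (insert 1 S) ^ j) (hY : (Y : G) ∈ (insert 1 S) ^ j) (c : Γ)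
    (hc : X * (c : H) = Y) {y : ℝ} (hy0 : 0 ≤ y) (hy : y ≤ 1 / 2)
    (h : y ≤ Real.log (LM (act Γ X) (Additive.ofMul (Abelianization.of c)))) :
    y / 3 ≤ j * H746UG.rho S := by
  classical
  set g := act Γ X with hg
  set b := Additive.ofMul (Abelianization.of c) with hb
  have hr : 0 ≤ (j : ℝ) * H746UG.rho S := mul_nonneg (Nat.cast_nonneg _) (rho_nonneg S)
  by_cases hfin : {z : ℂ | InSpec g b z ∧ 1 < ‖z‖}.Finite
  swap
  · rw [LM_inf g b hfin, Real.log_one] at h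
    linarith
  have hmem : ∀ z ∈ hfin.toFinset, InSpec g b z ∧ 1 < ‖z‖ := by
    intro z hz
    rw [Set.Finite.mem_toFinset] at hz
    exact hz
  have h1 := pair_bound S hS hne H Γ X Y hX hY c hc (ι := hfin.toFinset) (fun i => (i : ℂ))
    Subtype.val_injective (fun i => (hmem i i.2).2) (fun i => (hmem i i.2).1)
  have hM2 : Pool.Agent.W963.GE.M2 (fun i : hfin.toFinset => (i : ℂ)) = LM g b ^ 2 := by
    unfold Pool.Agent.W963.GE.M2
    rw [LM_eq g b hfin, Finset.prod_coe_sort hfin.toFinset (fun z => ‖z‖ ^ 2), Finset.prod_pow]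
  have hLM : 0 < LM g b := by
    rw [LM_eq g b hfin]
    exact Finset.prod_pos fun z hz => by linarith [(hmem z hz).2]
  have h2 : 2 / (1 + Pool.Agent.W963.GE.al (fun i : hfin.toFinset => (i : ℂ))) =
      Pool.Agent.W963.GE.base (LM g b) := by
    unfold Pool.Agent.W963.GE.al Pool.Agent.W963.GE.base
    rw [hM2]
  rw [h2] at h1
  refine le_trans ?_ h1
  refine Pool.Agent.TH53.UG.base_exp hLM ?_ hy0 (by linarith)
  have h1 : Real.exp (2 * y) ≤ LM g b ^ 2 := by
    calc Real.exp (2 * y) ≤ Real.exp (Real.log (LM g b ^ 2)) := by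
          apply Real.exp_le_exp.2
          rw [Real.log_pow]
          push_cast
          linarith
      _ = _ := Real.exp_log (by positivity)
  have h2 : 1 / LM g b ^ 2 ≤ 1 / (1 + 2 * y + (2 * y) ^ 2 / 2) :=
    one_div_le_one_div_of_le (by positivity)
      ((Real.quadratic_le_exp_of_nonneg (by linarith)).trans h1)
  have h3 : 1 / (1 + 2 * y + (2 * y) ^ 2 / 2) ≤ 1 - y := by
    rw [div_le_iff₀ (by positivity)]
    nlinarith [mul_nonneg hy0 (sub_nonneg.2 hy), mul_nonneg (mul_nonneg hy0 hy0) (sub_nonneg.2 hy)]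
  linarith

/-- the zeros of the minimal polynomial -/
noncomputable def RR (z : ℂ) : Finset ℂ := ((minpoly ℤ z).aroots ℂ).toFinset

lemma mem_RR {z a : ℂ} (hz : IsIntegral ℤ z) : a ∈ RR z ↔ aeval a (minpoly ℤ z) = 0 := by
  unfold RR
  rw [Multiset.mem_toFinset, mem_aroots]
  exact and_iff_right (minpoly.monic hz).ne_zero

lemma minpoly_eq_of_mem {z a : ℂ} (hz : IsIntegral ℤ z) (h : a ∈ RR z) :
    IsIntegral ℤ a ∧ minpoly ℤ a = minpoly ℤ z := by
  rw [mem_RR hz] at h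
  have ha : IsIntegral ℤ a := ⟨_, minpoly.monic hz, h⟩
  refine ⟨ha, ?_⟩
  have h1 : minpoly ℤ a ∣ minpoly ℤ z := minpoly.isIntegrallyClosed_dvd ha h
  have h2 := (minpoly.irreducible hz).dvd_iff.1 h1
  rcases h2 with h2 | h2
  · exact absurd h2 (minpoly.irreducible ha).not_isUnit
  · exact (eq_of_monic_of_associated (minpoly.monic hz) (minpoly.monic ha) h2).symm

lemma RR_symm {z a : ℂ} (hz : IsIntegral ℤ z) (ha : IsIntegral ℤ a) : a ∈ RR z ↔ z ∈ RR a := by
  constructor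
  · intro h
    rw [mem_RR ha, (minpoly_eq_of_mem hz h).2, minpoly.aeval]
  · intro h
    rw [mem_RR hz, (minpoly_eq_of_mem ha h).2, minpoly.aeval]

lemma nodup_aroots {z : ℂ} (hz : IsIntegral ℤ z) : ((minpoly ℤ z).aroots ℂ).Nodup :=
  Pool.Agent.W963.GE.roots_nodup z hz

lemma card_RR {z : ℂ} (hz : IsIntegral ℤ z) : (RR z).card = (minpoly ℤ z).natDegree := by
  unfold RR
  rw [Multiset.toFinset_card_of_nodup (nodup_aroots hz), aroots_def,
    IsAlgClosed.card_roots_map_eq_natDegree_of_leadingCoeff_ne_zero]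
  rw [(minpoly.monic hz).leadingCoeff, map_one]
  exact one_ne_zero

lemma log_MM {z : ℂ} (hz : IsIntegral ℤ z) :
    Real.log (Pool.Agent.W963.GE.MM z) = ∑ a ∈ RR z, Real.log (max 1 ‖a‖) := by
  rw [← Pool.Agent.W963.GE.MM_prod z hz]
  have h1 : (((minpoly ℤ z).map (Int.castRingHom ℂ)).roots.map fun a => max 1 ‖a‖).prod =
      ∏ a ∈ RR z, max 1 ‖a‖ := by
    have h2 : (RR z).val = (minpoly ℤ z).aroots ℂ := by
      unfold RR
      rw [Multiset.toFinset_val, Multiset.dedup_eq_self]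
      exact nodup_aroots hz
    change (((minpoly ℤ z).aroots ℂ).map fun a => max 1 ‖a‖).prod = _
    rw [← h2]
    rfl
  rw [h1, Real.log_prod]
  intro a _
  have : (0 : ℝ) < max 1 ‖a‖ := lt_max_of_lt_left one_pos
  exact this.ne'

theorem sum_conj (Z : Finset ℂ) (hint : ∀ z ∈ Z, IsIntegral ℤ z)
    (hcl : ∀ z ∈ Z, ∀ a : ℂ, aeval a (minpoly ℤ z) = 0 → a ∈ Z) :
    ∑ z ∈ Z, 1 / ((minpoly ℤ z).natDegree : ℝ) * Real.log (Pool.Agent.W963.GE.MM z) =
      ∑ z ∈ Z, Real.log (max 1 ‖z‖) := by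
  classical
  have h1 : ∀ z ∈ Z, 1 / ((minpoly ℤ z).natDegree : ℝ) * Real.log (Pool.Agent.W963.GE.MM z) =
      ∑ a ∈ Z, if a ∈ RR z then 1 / ((minpoly ℤ z).natDegree : ℝ) * Real.log (max 1 ‖a‖) else 0 := by
    intro z hz
    rw [log_MM (hint z hz), Finset.mul_sum, ← Finset.sum_filter]
    apply Finset.sum_congr _ fun _ _ => rfl
    ext a
    simp only [Finset.mem_filter]
    exact ⟨fun h => ⟨hcl z hz a ((mem_RR (hint z hz)).1 h), h⟩, fun h => h.2⟩
  rw [Finset.sum_congr rfl h1, Finset.sum_comm]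
  refine Finset.sum_congr rfl fun a ha => ?_
  have h2 : ∀ z ∈ Z, (if a ∈ RR z then 1 / ((minpoly ℤ z).natDegree : ℝ) *
      Real.log (max 1 ‖a‖) else 0) =
      if z ∈ RR a then 1 / ((minpoly ℤ a).natDegree : ℝ) * Real.log (max 1 ‖a‖) else 0 := by
    intro z hz
    by_cases h : a ∈ RR z
    · rw [if_pos h, if_pos ((RR_symm (hint z hz) (hint a ha)).1 h),
        (minpoly_eq_of_mem (hint z hz) h).2]
    · rw [if_neg h, if_neg (fun h' => h ((RR_symm (hint z hz) (hint a ha)).2 h'))]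
  rw [Finset.sum_congr rfl h2, ← Finset.sum_filter]
  have h3 : Z.filter (fun z => z ∈ RR a) = RR a := by
    ext z
    simp only [Finset.mem_filter]
    exact ⟨fun h => h.2, fun h => ⟨hcl a ha z ((mem_RR (hint a ha)).1 h), h⟩⟩
  rw [h3, Finset.sum_const, card_RR (hint a ha), nsmul_eq_mul, ← mul_assoc, mul_one_div,
    div_self, one_mul]
  have := minpoly.natDegree_pos (hint a ha)
  positivity

theorem dob_sum : ∃ c : ℝ, 0 < c ∧ ∀ (Z Z' : Finset ℂ), (∀ z ∈ Z, IsIntegral ℤ z) →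
    (∀ z ∈ Z, ∀ a : ℂ, aeval a (minpoly ℤ z) = 0 → a ∈ Z) → Z' ⊆ Z →
    (∀ z ∈ Z', z ≠ 0 ∧ ∀ m > 0, z ^ m ≠ 1) →
    c * ∑ z ∈ Z', 1 / ((minpoly ℤ z).natDegree *
      Real.log (2 * (minpoly ℤ z).natDegree) ^ 3) ≤ ∑ z ∈ Z, Real.log (max 1 ‖z‖) := by
  obtain ⟨c, hc, h⟩ := Pool.Agent.W963.GE.mm_dob
  refine ⟨c, hc, ?_⟩
  intro Z Z' hint hcl hsub hZ'
  rw [← sum_conj Z hint hcl, Finset.mul_sum]
  refine le_trans ?_ (Finset.sum_le_sum_of_subset_of_nonneg hsub ?_)
  · refine Finset.sum_le_sum fun z hz => ?_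
    have h1 := h z (hint z (hsub hz)) (hZ' z hz).1 (hZ' z hz).2
    calc c * (1 / ((minpoly ℤ z).natDegree * Real.log (2 * (minpoly ℤ z).natDegree) ^ 3)) =
        1 / ((minpoly ℤ z).natDegree : ℝ) *
          (c / Real.log (2 * (minpoly ℤ z).natDegree) ^ 3) := by
          rw [mul_one_div, div_mul_div_comm, one_mul]
      _ ≤ _ := mul_le_mul_of_nonneg_left h1 (by positivity)
  · intro z hz _
    exact mul_nonneg (by positivity) (Real.log_nonneg (Pool.Agent.W963.GE.MM_ge z (hint z hz)))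

end Pool.Agent.N772.GG
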