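import Pool.Agent.N772.GG.Track
import Pool.Agent.TH53.UG6
import Pool.Agent.R328.TA

/-!
# The growth rate and the Mahler measure of the whole annihilator of a vector
-/

set_option autoImplicit false

namespace Pool.Agent.N772.GG

open Subgroup Filter Topology
open scoped Pointwise commutatorElement IsMulCommutative
open Pool.Agent.H785R3.GrowthA
open Pool.Agent.TH53.UG (act act_of aeval_comm)

universe u

lemma ev_hom {G G' : Type*} [Group G] [Group G'] (f : G →* G') (X Y : G) (w : List Bool) :
    f (H746UG.ev X Y w) = H746UG.ev (f X) (f Y) w := by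
  induction w with
  | nil => simp [H746UG.ev_nil]
  | cons b w ih =>
    rw [H746UG.ev_cons, H746UG.ev_cons, map_mul, ih]
    cases b <;> simp

theorem words_sep {G : Type u} [Group G] (Γ : Subgroup G) [Γ.Normal] {X : G} (c : Γ)
    {ι : Type} (y : ι → ℂ)
    (hy : ∀ i, InSpec (act Γ X) (Additive.ofMul (Abelianization.of c)) (y i))
    (u v : List Bool) (hl : u.length = v.length)
    (h : H746UG.ev X (X * (c : G)) u = H746UG.ev X (X * (c : G)) v) :
    H746UG.dsm y u = H746UG.dsm y v := by
  classical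
  set D := ⁅Γ, Γ⁆ with hD
  have hsurj := QuotientGroup.mk'_surjective D
  set A := Γ.map (QuotientGroup.mk' D) with hA
  have hAn : A.Normal := Subgroup.Normal.map inferInstance _ hsurj
  have hcommA : IsMulCommutative A := by
    refine ⟨⟨?_⟩⟩
    rintro ⟨_, a, ha, rfl⟩ ⟨_, b, hb, rfl⟩
    apply Subtype.ext
    have : ⁅a, b⁆ ∈ D := commutator_mem_commutator ha hb
    rw [← QuotientGroup.eq_one_iff, commutatorElement_def] at this
    simp only [QuotientGroup.mk_mul, QuotientGroup.mk_inv] at this
    rw [mul_inv_eq_one, mul_inv_eq_iff_eq_mul] at this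
    exact this
  let ψ0 : Γ →* A :=
    ((QuotientGroup.mk' D).comp Γ.subtype).codRestrict A (fun a => mem_map_of_mem _ a.2)
  have hψ0 : ∀ a : Γ, ((ψ0 a : A) : G ⧸ D) = QuotientGroup.mk' D (a : G) := fun _ => rfl
  let ψ : Abelianization Γ →* A := Abelianization.lift ψ0
  have hψ : ∀ a : Γ, ψ (Abelianization.of a) = ψ0 a := fun a => Abelianization.lift_apply_of _ _
  have hψinj : Function.Injective ψ := by
    rw [injective_iff_map_eq_one]
    intro a ha
    obtain ⟨γ, rfl⟩ := QuotientGroup.mk_surjective a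
    change ψ (Abelianization.of γ) = 1 at ha
    rw [hψ] at ha
    have h1 : QuotientGroup.mk' D (γ : G) = 1 := by
      rw [← hψ0, ha]; rfl
    have h2 : (γ : G) ∈ D := (QuotientGroup.eq_one_iff _).1 h1
    rw [hD, ← Subgroup.map_subtype_commutator] at h2
    obtain ⟨δ, hδ, hδe⟩ := h2
    have h3 : δ = γ := Subtype.ext hδe
    rw [h3] at hδ
    exact (QuotientGroup.eq_one_iff γ).2 hδ
  let φ : Additive (Abelianization Γ) →ₗ[ℤ] Additive A :=
    (MonoidHom.toAdditive ψ).toIntLinearMap
  have hφinj : Function.Injective φ := fun a b h => hψinj h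
  have hφ : ∀ a : Γ, H746UG.val A (φ (Additive.ofMul (Abelianization.of a))) =
      QuotientGroup.mk' D (a : G) := by
    intro a
    have : φ (Additive.ofMul (Abelianization.of a)) = Additive.ofMul (ψ (Abelianization.of a)) := rfl
    rw [this, hψ]
    rfl
  have hcomm : ∀ (t : G) (b : Additive (Abelianization Γ)),
      φ (act Γ t b) = H746UG.th A (QuotientGroup.mk' D t) (φ b) := by
    intro t b
    obtain ⟨γ, hγ⟩ := QuotientGroup.mk_surjective (Additive.toMul b)
    have hb : b = Additive.ofMul (Abelianization.of γ) := by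
      apply Additive.toMul.injective
      exact hγ.symm
    rw [hb, act_of]
    apply H746UG.val_inj
    rw [H746UG.val_th, hφ, hφ]
    simp
  refine digits_of_pair A (t := QuotientGroup.mk' D X) (d := QuotientGroup.mk' D (c : G))
    (m := φ (Additive.ofMul (Abelianization.of c))) (hφ c) y ?_ u v hl ?_
  · intro p hp
    rw [← aeval_comm φ (hcomm X) p] at hp
    have h1 := hφinj (hp.trans (map_zero φ).symm)
    exact aeval_pi0 y p fun i => hy i p h1
  · have h1 := congrArg (QuotientGroup.mk' D) h
    rw [ev_hom, ev_hom, map_mul] at h1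
    exact h1

/-- from words to the growth rate -/
lemma rho_of_words {G : Type u} [Group G] (S : Set G) (hS : S.Finite) (hne : S.Nonempty) {j : ℕ}
    {B : ℝ} (hB : 0 < B)
    (h : ∀ n, B ^ n ≤ ((Nat.card ↥((insert 1 S) ^ n) ^ j : ℕ) : ℝ)) :
    Real.log B ≤ j * H746UG.rho S := by
  have h1 : Tendsto (fun n : ℕ => (j : ℝ) * (Real.log (Nat.card ↥(S ^ n)) / n) +
      (j : ℝ) * (Real.log ((n : ℝ) + 1) / n)) atTop (𝓝 (j * H746UG.rho S + j * 0)) := by
    refine ((H746UG.tendsto_rho S).const_mul _).add (Tendsto.const_mul _ ?_)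
    have h5 : Tendsto (fun x : ℝ => Real.log x / x) atTop (𝓝 0) := by
      have := Real.isLittleO_log_id_atTop.tendsto_div_nhds_zero
      simpa using this
    have h4 : Tendsto (fun n : ℕ => Real.log ((n : ℝ) + 1) / ((n : ℝ) + 1)) atTop (𝓝 0) :=
      h5.comp (tendsto_atTop_add_const_right _ 1 tendsto_natCast_atTop_atTop)
    have h7 : Tendsto (fun n : ℕ => ((n : ℝ) + 1) / n) atTop (𝓝 1) := by
      have h8 : Tendsto (fun n : ℕ => (1 : ℝ) + 1 / (n : ℝ)) atTop (𝓝 (1 + 0)) :=
        tendsto_const_nhds.add tendsto_one_div_atTop_nhds_zero_nat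
      rw [add_zero] at h8
      refine h8.congr' ?_
      filter_upwards [eventually_gt_atTop 0] with n hn
      have : (n : ℝ) ≠ 0 := by exact_mod_cast hn.ne'
      field_simp
    have h9 := h4.mul h7
    rw [zero_mul] at h9
    refine h9.congr' ?_
    filter_upwards [eventually_gt_atTop 0] with n hn
    have : (n : ℝ) ≠ 0 := by exact_mod_cast hn.ne'
    have : (n : ℝ) + 1 ≠ 0 := by positivity
    field_simp
  rw [mul_zero, add_zero] at h1
  refine ge_of_tendsto h1 ?_
  filter_upwards [eventually_gt_atTop 0] with n hn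
  have hn' : (0 : ℝ) < n := by exact_mod_cast hn
  have h2 := Pool.Agent.W963.GE.card_insert_pow S hS hne n
  have hpos : 0 < Nat.card ↥(S ^ n) := by
    have hf : Finite ↥(S ^ n) := (H746UG.finite_pow _ hS _).to_subtype
    have hne' : Nonempty ↥(S ^ n) := (Set.Nonempty.pow hne).to_subtype
    exact Nat.card_pos
  have h3 : B ^ n ≤ (((n : ℝ) + 1) * Nat.card ↥(S ^ n)) ^ j := by
    refine (h n).trans ?_
    push_cast
    apply pow_le_pow_left₀ (Nat.cast_nonneg _)
    exact_mod_cast h2
  have h4 := Real.log_le_log (by positivity) h3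
  rw [Real.log_pow, Real.log_pow, Real.log_mul (by positivity) (by positivity)] at h4
  rw [← mul_add, ← add_div, mul_div_assoc', le_div_iff₀ hn', mul_comm (Real.log B)]
  calc (n : ℝ) * Real.log B ≤ j * (Real.log ((n : ℝ) + 1) + Real.log (Nat.card ↥(S ^ n))) := h4
    _ = _ := by ring

/-- the lower bound from a pair of words -/
theorem pair_bound {G : Type u} [Group G] (S : Set G) (hS : S.Finite) (hne : S.Nonempty)
    (H : Subgroup G) (Γ : Subgroup H) [Γ.Normal] {j : ℕ} (X Y : H)
    (hX : (X : G) ∈ (insert 1 S) ^ j) (hY : (Y : G) ∈ (insert 1 S) ^ j) (c : Γ)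
    (hc : X * (c : H) = Y) {ι : Type} [Fintype ι] [DecidableEq ι] (y : ι → ℂ)
    (hinj : Function.Injective y) (hy1 : ∀ i, 1 < ‖y i‖)
    (hy : ∀ i, InSpec (act Γ X) (Additive.ofMul (Abelianization.of c)) (y i)) :
    Real.log (2 / (1 + Pool.Agent.W963.GE.al y)) ≤ j * H746UG.rho S := by
  have hal : 0 < Pool.Agent.W963.GE.al y := Real.exp_pos _
  refine rho_of_words S hS hne (by positivity) fun n => (count y hinj hy1 n).trans ?_
  have h1 := card_DS_le (hS.insert 1) hX hY y (by
    intro u v hl he
    refine words_sep Γ c y hy u v hl ?_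
    apply Subtype.val_injective
    have e1 := ev_hom H.subtype X (X * (c : H)) u
    have e2 := ev_hom H.subtype X (X * (c : H)) v
    rw [hc] at e1 e2 ⊢
    exact e1.trans (he.trans e2.symm)) n
  exact_mod_cast h1

end Pool.Agent.N772.GG
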